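import Mathlib

/-!
# Project GQ (helper162): the transcendence degree of a compositum (helper288)
-/

set_option autoImplicit false

open IntermediateField

namespace Pool.Agent.N288.GQ

theorem cross {F A M : Type} [Field F] [Field A] [Field M] [Algebra F A] [Algebra F M]
    (i : A →ₐ[F] M) (s : Set A) (u : Set M) (hu : i '' s ⊆ u) (a : A)
    (h : IsAlgebraic (IntermediateField.adjoin F s) a) :
    IsAlgebraic (IntermediateField.adjoin F u) (i a) := by
  have hmem : ∀ x : IntermediateField.adjoin F s, i x ∈ IntermediateField.adjoin F u := by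
    intro x
    apply IntermediateField.adjoin.mono F _ _ hu
    rw [← IntermediateField.adjoin_map]
    exact ⟨x, x.2, rfl⟩
  let f : IntermediateField.adjoin F s →+* IntermediateField.adjoin F u :=
    (i.toRingHom.comp (algebraMap (IntermediateField.adjoin F s) A)).codRestrict _ hmem
  exact h.ringHom_of_comp_eq f i.toRingHom f.injective (by ext x; rfl)

open scoped IntermediateField.algebraAdjoinAdjoin in
theorem alg_adjoin {F M : Type} [Field F] [Field M] [Algebra F M] (u : Set M)
    (h : Algebra.IsAlgebraic (IntermediateField.adjoin F u) M) :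
    Algebra.IsAlgebraic (Algebra.adjoin F u) M :=
  (IsFractionRing.comap_isAlgebraic_iff (A := Algebra.adjoin F u)
    (K := IntermediateField.adjoin F u)).2 h

theorem trdeg_two {F A B M : Type} [Field F] [Field A] [Field B] [Field M] [Algebra F A]
    [Algebra F B] [Algebra F M] (iA : A →ₐ[F] M) (iB : B →ₐ[F] M)
    (hgen : iA.fieldRange ⊔ iB.fieldRange = ⊤) :
    Algebra.trdeg F M ≤ Algebra.trdeg F A + Algebra.trdeg F B := by
  obtain ⟨s, hs⟩ := exists_isTranscendenceBasis F A
  obtain ⟨t, ht⟩ := exists_isTranscendenceBasis F B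
  obtain ⟨u, hu⟩ : ∃ u, u = iA '' s ∪ iB '' t := ⟨_, rfl⟩
  have h1 : Cardinal.mk u ≤ Cardinal.mk s + Cardinal.mk t := by
    rw [hu]
    exact (Cardinal.mk_union_le _ _).trans (add_le_add Cardinal.mk_image_le Cardinal.mk_image_le)
  rw [← hs.cardinalMk_eq_trdeg, ← ht.cardinalMk_eq_trdeg]
  refine le_trans ?_ h1
  let C : IntermediateField F M :=
    (algebraicClosure (IntermediateField.adjoin F u) M).restrictScalars F
  have hC : ∀ x, x ∈ C ↔ IsAlgebraic (IntermediateField.adjoin F u) x :=
    fun x => mem_algebraicClosure_iff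
  have hA : iA.fieldRange ≤ C := by
    rintro _ ⟨a, rfl⟩
    show iA a ∈ C
    rw [hC]
    have h2 := hs.isAlgebraic_field
    rw [Subtype.range_coe] at h2
    exact cross iA s u (by rw [hu]; exact Set.subset_union_left) a (h2.isAlgebraic a)
  have hB : iB.fieldRange ≤ C := by
    rintro _ ⟨a, rfl⟩
    show iB a ∈ C
    rw [hC]
    have h2 := ht.isAlgebraic_field
    rw [Subtype.range_coe] at h2
    exact cross iB t u (by rw [hu]; exact Set.subset_union_right) a (h2.isAlgebraic a)
  have hall : Algebra.IsAlgebraic (IntermediateField.adjoin F u) M := by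
    refine ⟨fun x => (hC x).1 ?_⟩
    have h2 := sup_le hA hB
    rw [hgen] at h2
    exact h2 IntermediateField.mem_top
  have := alg_adjoin u hall
  exact Algebra.IsAlgebraic.trdeg_le_cardinalMk F u

theorem gen_two {F K : Type} [Field F] [Field K] [Algebra F K] (A B M : IntermediateField F K)
    (hA : A ≤ M) (hB : B ≤ M) (h : M ≤ A ⊔ B) :
    (IntermediateField.inclusion hA).fieldRange ⊔ (IntermediateField.inclusion hB).fieldRange =
      ⊤ := by
  rw [eq_top_iff]
  intro x _
  have h1 : A ≤ ((IntermediateField.inclusion hA).fieldRange ⊔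
      (IntermediateField.inclusion hB).fieldRange).map M.val := by
    intro a ha
    exact ⟨IntermediateField.inclusion hA ⟨a, ha⟩,
      (le_sup_left : _ ≤ (IntermediateField.inclusion hA).fieldRange ⊔
        (IntermediateField.inclusion hB).fieldRange) ⟨⟨a, ha⟩, rfl⟩, rfl⟩
  have h2 : B ≤ ((IntermediateField.inclusion hA).fieldRange ⊔
      (IntermediateField.inclusion hB).fieldRange).map M.val := by
    intro a ha
    exact ⟨IntermediateField.inclusion hB ⟨a, ha⟩,
      (le_sup_right : _ ≤ (IntermediateField.inclusion hA).fieldRange ⊔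
        (IntermediateField.inclusion hB).fieldRange) ⟨⟨a, ha⟩, rfl⟩, rfl⟩
  obtain ⟨y, hy, hxy⟩ := (h.trans (sup_le h1 h2)) x.2
  have : y = x := Subtype.ext hxy
  rw [← this]
  exact hy

theorem iSup_succ {F K : Type} [Field F] [Field K] [Algebra F K] {k : ℕ}
    (E : Fin (k + 1) → IntermediateField F K) :
    (⨆ i, E i) = (⨆ i : Fin k, E i.castSucc) ⊔ E (Fin.last k) := by
  apply le_antisymm
  · refine iSup_le fun i => ?_
    induction i using Fin.lastCases with
    | last => exact le_sup_right
    | cast i => exact (le_iSup (fun i : Fin k => E i.castSucc) i).trans le_sup_left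
  · exact sup_le (iSup_le fun i => le_iSup E i.castSucc) (le_iSup E (Fin.last k))

theorem trdeg_iSup {F K : Type} [Field F] [Field K] [Algebra F K] {k : ℕ}
    (E : Fin k → IntermediateField F K) (n : Fin k → ℕ) (h : ∀ i, Algebra.trdeg F (E i) = n i) :
    Algebra.trdeg F ↥(⨆ i, E i) ≤ (∑ i, n i : ℕ) := by
  induction k with
  | zero =>
    have h1 : (⨆ i, E i) = ⊥ := by simp
    rw [h1]
    have : Algebra.trdeg F (⊥ : IntermediateField F K) = 0 := trdeg_eq_zero_iff.2 inferInstance
    rw [this]
    exact zero_le'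
  | succ k ih =>
    have h1 := trdeg_two _ _ (gen_two (⨆ i : Fin k, E i.castSucc) (E (Fin.last k)) (⨆ i, E i)
      (iSup_le fun i => le_iSup E i.castSucc) (le_iSup E (Fin.last k)) (iSup_succ E).le)
    rw [Fin.sum_univ_castSucc]
    refine h1.trans ?_
    rw [h, Nat.cast_add]
    exact add_le_add (ih (fun i => E i.castSucc) (fun i => n i.castSucc) fun i => h _) le_rfl

end Pool.Agent.N288.GQ
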