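import Pool.Agent.N162.GQ.Stm
import Pool.Agent.N288.GQ.Tr

/-!
# Project GQ (helper162): separation of points by the canonical forms of products of several
factors, from the case of two factors (helper288)
-/

set_option autoImplicit false
set_option linter.overlappingInstances false
set_option linter.unusedSectionVars false

open FF IntermediateField Module

namespace Pool.Agent.N288.GQ

open Pool.Agent.W619.PQ Pool.Agent.N145.SX Pool.Agent.N162.GQ
open Pool.Agent.W602.GT (Divisorial RegAt IsPluri DerReg DerLog LogAt)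
open Pool.Agent.R882.LT (SecAt)

theorem hx_mono {E : Type} [Field E] [Algebra ℂ E] {n : ℕ} {z : Fin n → E}
    {B B' : Place ℂ E → Prop} (h : ∀ P, B P → B' P) {f : E} (hf : f ∈ HX z B) : f ∈ HX z B' := by
  intro P hP
  obtain ⟨h1, h2⟩ := hf P hP
  exact ⟨h1, fun h3 => h2 fun h4 => h3 (h P h4)⟩

theorem sepF_mono {E : Type} [Field E] [Algebra ℂ E] {n : ℕ} {B B' : Place ℂ E → Prop} {g : ℕ}
    (h : ∀ P, B P → B' P) (hs : SepF E n B g) : SepF E n B' g := by
  intro z hz Ω _ _ _ A hA c hc σ hσ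
  exact hs z hz Ω A hA c (fun f hf => hc f (hx_mono h hf)) σ hσ

theorem sepF_bot {K : Type} [Field K] [Algebra ℂ K] (g : ℕ)
    (B : Place ℂ (⊥ : IntermediateField ℂ K) → Prop) :
    SepF (⊥ : IntermediateField ℂ K) 0 B g := by
  intro z _ Ω _ _ _ A _ c hc σ hσ
  have hsub : ∀ σ τ : (⊥ : IntermediateField ℂ K) →ₐ[ℂ] Ω, σ = τ := by
    intro σ τ
    ext x
    obtain ⟨y, hy⟩ := IntermediateField.mem_bot.1 x.2
    have hx : x = algebraMap ℂ _ y := Subtype.ext hy.symm
    rw [hx, AlgHom.commutes, AlgHom.commutes]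
  have h1 : (1 : (⊥ : IntermediateField ℂ K)) ∈ HX z B := by
    intro P _
    exfalso
    obtain ⟨t, ht, ht1⟩ := P.surj
    obtain ⟨y, hy⟩ := IntermediateField.mem_bot.1 t.2
    have hx : t = algebraMap ℂ _ y := Subtype.ext hy.symm
    have hy0 : y ≠ 0 := by
      rintro rfl
      rw [map_zero] at hx
      exact ht hx
    rw [hx, P.ord_const hy0] at ht1
    exact zero_ne_one ht1
  have h2 := hc 1 h1
  have hA : A = {σ} := by
    ext τ
    rw [Finset.mem_singleton]
    exact ⟨fun _ => hsub τ σ, fun h => by rw [h]; exact hσ⟩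
  rw [hA, Finset.sum_singleton, map_one, mul_one] at h2
  exact h2

/-- GQ/FAM -/
theorem fam_ (hTWO : StTWO) : StFAM := by
  intro K _ _ k
  induction k with
  | zero =>
    intro E n g B _ _ _ _
    have h1 : (⨆ i, E i) = ⊥ := by simp
    have key : ∀ (M : IntermediateField ℂ K), M = ⊥ → ∀ B' : Place ℂ M → Prop,
        SepF M 0 B' g := by
      rintro M rfl B'
      exact sepF_bot g B'
    exact key _ h1 _
  | succ k ih =>
    intro E n g B hess htr hsum hsep
    obtain ⟨E', hE'⟩ : ∃ E', E' = ⨆ i : Fin k, E i.castSucc := ⟨_, rfl⟩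
    have hle' : E' ≤ ⨆ i, E i := by
      rw [hE']
      exact iSup_le fun i => le_iSup E i.castSucc
    have hlel : E (Fin.last k) ≤ ⨆ i, E i := le_iSup E (Fin.last k)
    have hgen := gen_two E' (E (Fin.last k)) (⨆ i, E i) hle' hlel (by
      rw [hE']
      exact (iSup_succ E).le)
    have ht1 : Algebra.trdeg ℂ E' ≤ (∑ i : Fin k, n i.castSucc : ℕ) := by
      rw [hE']
      exact trdeg_iSup _ _ fun i => htr _
    have ht2 := trdeg_two _ _ hgen
    rw [hsum, htr, Fin.sum_univ_castSucc] at ht2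
    have ht3 : Algebra.trdeg ℂ E' = (∑ i : Fin k, n i.castSucc : ℕ) := by
      obtain ⟨m, hm⟩ := Cardinal.lt_aleph0.1 (ht1.trans_lt (Cardinal.natCast_lt_aleph0))
      rw [hm] at ht1 ht2 ⊢
      have h3 : m ≤ ∑ i : Fin k, n i.castSucc := by exact_mod_cast ht1
      have h4 : ∑ i : Fin k, n i.castSucc + n (Fin.last k) ≤ m + n (Fin.last k) := by
        exact_mod_cast ht2
      have h5 : m = ∑ i : Fin k, n i.castSucc := by omega
      rw [h5]
    have hess' : Algebra.EssFiniteType ℂ E' := by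
      rw [hE', IntermediateField.essFiniteType_iff]
      exact IntermediateField.fg_iSup fun i => IntermediateField.essFiniteType_iff.1 (hess _)
    have hessl := hess (Fin.last k)
    letI a1 : Algebra E' ↥(⨆ i, E i) := (IntermediateField.inclusion hle').toRingHom.toAlgebra
    letI a2 : Algebra (E (Fin.last k)) ↥(⨆ i, E i) :=
      (IntermediateField.inclusion hlel).toRingHom.toAlgebra
    haveI s1 : IsScalarTower ℂ E' ↥(⨆ i, E i) := IsScalarTower.of_algebraMap_eq fun _ => rfl
    haveI s2 : IsScalarTower ℂ (E (Fin.last k)) ↥(⨆ i, E i) :=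
      IsScalarTower.of_algebraMap_eq fun _ => rfl
    have hgen' : IntermediateField.adjoin ℂ (Set.range (algebraMap E' ↥(⨆ i, E i)) ∪
        Set.range (algebraMap (E (Fin.last k)) ↥(⨆ i, E i))) = ⊤ := by
      rw [eq_top_iff, ← hgen]
      refine sup_le ?_ ?_
      · rintro _ ⟨x, rfl⟩
        exact IntermediateField.subset_adjoin _ _ (Or.inl ⟨x, rfl⟩)
      · rintro _ ⟨x, rfl⟩
        exact IntermediateField.subset_adjoin _ _ (Or.inr ⟨x, rfl⟩)
    have ihs : ∃ B' : Place ℂ E' → Prop, SepF E' (∑ i : Fin k, n i.castSucc) B' g ∧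
        ∀ P, B' P → ∃ (i : Fin k) (R : Place ℂ (E i.castSucc)) (e : ℕ), B i.castSucc R ∧ 0 < e ∧
          ∀ (f : E i.castSucc) (hf : (f : K) ∈ E'), P.ord ⟨f, hf⟩ = e * R.ord f := by
      subst hE'
      refine ⟨BdF (fun i : Fin k => E i.castSucc) (fun i => B i.castSucc),
        ih (fun i => E i.castSucc) (fun i => n i.castSucc) g (fun i => B i.castSucc)
          (fun i => hess _) (fun i => htr _) ht3 (fun i => hsep _), ?_⟩
      rintro P ⟨i, R, e, h1, h2, h3⟩
      exact ⟨i, R, e, h1, h2, fun f hf => h3 f⟩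
    obtain ⟨B', ihB, hB'⟩ := ihs
    have hmain := hTWO ↥(⨆ i, E i) E' (E (Fin.last k)) (∑ i : Fin k, n i.castSucc)
      (n (Fin.last k)) g ht3 (htr _) (by rw [hsum, Fin.sum_univ_castSucc]) hgen' B'
      (B (Fin.last k)) ihB (hsep _)
    rw [Fin.sum_univ_castSucc]
    refine sepF_mono ?_ hmain
    rintro Q (⟨P, e, hP, hQ⟩ | ⟨P, e, hP, hQ⟩)
    · obtain ⟨i, R, e', h1, h2, h3⟩ := hB' P hP
      refine ⟨i.castSucc, R, e * e', h1, Nat.mul_pos hQ.1 h2, fun f => ?_⟩
      have hf : (f : K) ∈ E' := by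
        rw [hE']
        exact le_iSup (fun i : Fin k => E i.castSucc) i f.2
      have h4 := hQ.2 ⟨f, hf⟩
      rw [h3 f hf] at h4
      have h5 : Q.ord ⟨f, le_iSup E i.castSucc f.2⟩ = (e : ℤ) * (e' * R.ord f) := h4
      rw [h5]
      push_cast
      ring
    · exact ⟨Fin.last k, P, e, hP, hQ.1, fun f => hQ.2 f⟩

end Pool.Agent.N288.GQ
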